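import Pool.Agent.V5helper32.CM.Stm2

/-!
Job `DK1` of the project CM: the identity behind the commutation of the Dunkl operators.
-/

open MvPolynomial

namespace Pool.Agent.V5helper69.CM

open Pool.Agent.V5helper32.CM

variable {n : ℕ}

/-- the linear form with coefficients `γ` as a rational function. -/
noncomputable def Lf (γ : Fin n → ℂ) : Kf n :=
  algebraMap (MvPolynomial (Fin n) ℂ) (Kf n) (∑ l, C (γ l) * X l)

theorem Lf_lin (x y : ℂ) (γ δ : Fin n → ℂ) :
    Lf (x • γ + y • δ) = algebraMap ℂ (Kf n) x * Lf γ + algebraMap ℂ (Kf n) y * Lf δ := by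
  unfold Lf
  rw [IsScalarTower.algebraMap_apply ℂ (MvPolynomial (Fin n) ℂ) (Kf n) x,
    IsScalarTower.algebraMap_apply ℂ (MvPolynomial (Fin n) ℂ) (Kf n) y, ← map_mul, ← map_mul,
    ← map_add]
  congr 1
  rw [MvPolynomial.algebraMap_eq, Finset.mul_sum, Finset.mul_sum, ← Finset.sum_add_distrib]
  refine Finset.sum_congr rfl fun l _ => ?_
  simp only [Pi.add_apply, Pi.smul_apply, smul_eq_mul, C_add, C_mul]
  ring

theorem Lf_ne_zero (γ : Fin n → ℂ) (h : γ ≠ 0) : Lf γ ≠ 0 := by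
  unfold Lf
  intro h0
  rw [map_eq_zero_iff _ (IsFractionRing.injective (MvPolynomial (Fin n) ℂ) (Kf n))] at h0
  apply h
  funext j
  have h1 := congrArg (MvPolynomial.eval (Pi.single j (1 : ℂ))) h0
  rw [map_sum, map_zero] at h1
  simp only [map_mul, eval_C, eval_X, Pi.single_apply, mul_ite, mul_one, mul_zero] at h1
  simpa using h1

theorem theta_id (a b : Fin n) (p q γ δ ε : Fin n → ℂ) (hγ : ∃ x y : ℂ, γ = x • p + y • q)
    (hδ : ∃ x y : ℂ, δ = x • p + y • q) (hε : ∃ x y : ℂ, ε = x • p + y • q)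
    (hγ0 : γ ≠ 0) (hδ0 : δ ≠ 0) (hε0 : ε ≠ 0) :
    algebraMap ℂ (Kf n) (γ a * δ b - γ b * δ a) * (Lf γ)⁻¹ * (Lf δ)⁻¹ =
      algebraMap ℂ (Kf n) (γ a * ε b - γ b * ε a) * (Lf γ)⁻¹ * (Lf ε)⁻¹ -
      algebraMap ℂ (Kf n) (δ a * ε b - δ b * ε a) * (Lf δ)⁻¹ * (Lf ε)⁻¹ := by
  have h1 := Lf_ne_zero γ hγ0
  have h2 := Lf_ne_zero δ hδ0
  have h3 := Lf_ne_zero ε hε0
  have key : algebraMap ℂ (Kf n) (γ a * δ b - γ b * δ a) * Lf ε =
      algebraMap ℂ (Kf n) (γ a * ε b - γ b * ε a) * Lf δ -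
      algebraMap ℂ (Kf n) (δ a * ε b - δ b * ε a) * Lf γ := by
    obtain ⟨x, y, rfl⟩ := hγ
    obtain ⟨x', y', rfl⟩ := hδ
    obtain ⟨x'', y'', rfl⟩ := hε
    rw [Lf_lin, Lf_lin, Lf_lin]
    simp only [Pi.add_apply, Pi.smul_apply, smul_eq_mul, map_sub, map_add, map_mul]
    ring
  field_simp
  linear_combination key

/-- a pair of vectors spanning a plane, with all minors. -/
theorem span_of_rows (i j k l : Fin n) (D : Matrix (Fin n) (Fin n) ℂ) (βs αs βr αr : Fin n → ℂ)
    (κ : ℂ) (hD : ∀ p q, D p q = βs p * (αs q + κ * αr q) + βr p * αr q)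
    (hne : D i k * D j l - D i l * D j k ≠ 0) :
    (∃ x y : ℂ, αs = x • D i + y • D j) ∧ (∃ x y : ℂ, αr = x • D i + y • D j) := by
  have hdet : βs i * βr j - βs j * βr i ≠ 0 := by
    intro h0
    apply hne
    rw [hD, hD, hD, hD]
    linear_combination (αs k * αr l - αs l * αr k) * h0
  set Δ := βs i * βr j - βs j * βr i with hΔ
  have hr : αr = (-(βs j) / Δ) • D i + (βs i / Δ) • D j := by
    funext q
    simp only [Pi.add_apply, Pi.smul_apply, smul_eq_mul]
    rw [hD, hD]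
    field_simp
    rw [hΔ]
    ring
  have hs : αs = ((βr j + κ * βs j) / Δ) • D i + (-(βr i + κ * βs i) / Δ) • D j := by
    funext q
    simp only [Pi.add_apply, Pi.smul_apply, smul_eq_mul]
    rw [hD, hD]
    field_simp
    rw [hΔ]
    ring
  exact ⟨⟨_, _, hs⟩, ⟨_, _, hr⟩⟩

section

variable {W : Type} [Group W] [Fintype W] (ρ : W →* Gl n)

/-- the invariant form -/
noncomputable def frm (x y : Fin n → ℂ) : ℂ :=
  ∑ g : W, star ((ρ g).val.mulVec x) ⬝ᵥ (ρ g).val.mulVec y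

theorem frm_inv (h : W) (x y : Fin n → ℂ) :
    frm ρ ((ρ h).val.mulVec x) ((ρ h).val.mulVec y) = frm ρ x y := by
  unfold frm
  rw [← Equiv.sum_comp (Equiv.mulRight h)
    (fun g : W => star ((ρ g).val.mulVec x) ⬝ᵥ (ρ g).val.mulVec y)]
  refine Finset.sum_congr rfl fun g _ => ?_
  rw [Equiv.coe_mulRight, map_mul, Units.val_mul, Matrix.mulVec_mulVec, Matrix.mulVec_mulVec]

theorem frm_add_left (x x' y : Fin n → ℂ) : frm ρ (x + x') y = frm ρ x y + frm ρ x' y := by
  unfold frm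
  rw [← Finset.sum_add_distrib]
  refine Finset.sum_congr rfl fun g _ => ?_
  rw [Matrix.mulVec_add, star_add, add_dotProduct]

theorem frm_smul_left (k : ℂ) (x y : Fin n → ℂ) : frm ρ (k • x) y = star k * frm ρ x y := by
  unfold frm
  rw [Finset.mul_sum]
  refine Finset.sum_congr rfl fun g _ => ?_
  rw [Matrix.mulVec_smul, star_smul, smul_dotProduct, smul_eq_mul]

theorem frm_add_right (x y y' : Fin n → ℂ) : frm ρ x (y + y') = frm ρ x y + frm ρ x y' := by
  unfold frm
  rw [← Finset.sum_add_distrib]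
  refine Finset.sum_congr rfl fun g _ => ?_
  rw [Matrix.mulVec_add, dotProduct_add]

theorem frm_smul_right (k : ℂ) (x y : Fin n → ℂ) : frm ρ x (k • y) = k * frm ρ x y := by
  unfold frm
  rw [Finset.mul_sum]
  refine Finset.sum_congr rfl fun g _ => ?_
  rw [Matrix.mulVec_smul, dotProduct_smul, smul_eq_mul]

theorem frm_self_ne (x : Fin n → ℂ) (hx : x ≠ 0) : frm ρ x x ≠ 0 := by
  intro h0
  apply hx
  have h1 : ∀ g : W, star ((ρ g).val.mulVec x) ⬝ᵥ (ρ g).val.mulVec x =
      ((∑ i, ‖(ρ g).val.mulVec x i‖ ^ 2 : ℝ) : ℂ) := by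
    intro g
    unfold dotProduct
    push_cast
    refine Finset.sum_congr rfl fun i _ => ?_
    rw [Pi.star_apply, RCLike.star_def, RCLike.conj_mul]
    norm_cast
  unfold frm at h0
  rw [Finset.sum_congr rfl fun g _ => h1 g, ← Complex.ofReal_sum] at h0
  have h2 : (∑ g : W, ∑ i, ‖(ρ g).val.mulVec x i‖ ^ 2 : ℝ) = 0 := by exact_mod_cast h0
  rw [Finset.sum_eq_zero_iff_of_nonneg (fun g _ => by positivity)] at h2
  have h3 := h2 1 (Finset.mem_univ _)
  rw [Finset.sum_eq_zero_iff_of_nonneg (fun g _ => by positivity)] at h3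
  funext i
  have h4 := h3 i (Finset.mem_univ _)
  rw [map_one, Units.val_one, Matrix.one_mulVec] at h4
  simpa using h4

theorem frm_single (x v : Fin n → ℂ) :
    frm ρ x v = ∑ j, v j * frm ρ x (Pi.single j 1) := by
  have h1 : v = ∑ j, v j • (Pi.single j (1 : ℂ) : Fin n → ℂ) := by
    funext k
    rw [Finset.sum_apply]
    simp [Pi.single_apply]
  have h2 : ∀ (S : Finset (Fin n)), frm ρ x (∑ j ∈ S, v j • (Pi.single j (1 : ℂ) : Fin n → ℂ)) =
      ∑ j ∈ S, v j * frm ρ x (Pi.single j 1) := by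
    classical
    intro S
    induction S using Finset.induction_on with
    | empty =>
      rw [Finset.sum_empty, Finset.sum_empty]
      have := frm_smul_right ρ 0 x 0
      rw [zero_smul, zero_mul] at this
      exact this
    | insert a S ha ih =>
      rw [Finset.sum_insert ha, Finset.sum_insert ha, frm_add_right, frm_smul_right, ih]
  conv_lhs => rw [h1]
  exact h2 _

theorem mulVec_refl {s : W} {α β : Fin n → ℂ}
    (h : ((ρ s)⁻¹).val - 1 = Matrix.of fun p q => β p * α q) (x : Fin n → ℂ) :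
    (ρ s⁻¹).val.mulVec x = x + (∑ q, α q * x q) • β := by
  have h1 : (ρ s⁻¹).val = 1 + Matrix.of fun p q => β p * α q := by
    rw [map_inv, ← h]
    abel
  rw [h1, Matrix.add_mulVec, Matrix.one_mulVec]
  congr 1
  funext p
  simp only [Matrix.mulVec, dotProduct, Matrix.of_apply, Pi.smul_apply, smul_eq_mul,
    Finset.sum_mul]
  exact Finset.sum_congr rfl fun q _ => by ring

theorem orth {s : W} {α β : Fin n → ℂ}
    (h : ((ρ s)⁻¹).val - 1 = Matrix.of fun p q => β p * α q) (hα : α ≠ 0) (v : Fin n → ℂ)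
    (hv : ∑ q, α q * v q = 0) : frm ρ β v = 0 := by
  obtain ⟨j, hj⟩ := Function.ne_iff.1 hα
  have h1 := frm_inv ρ s⁻¹ (Pi.single j 1) v
  rw [mulVec_refl ρ h, mulVec_refl ρ h, hv, zero_smul, add_zero, frm_add_left,
    frm_smul_left] at h1
  have h2 : ∑ q, α q * (Pi.single j (1 : ℂ) : Fin n → ℂ) q = α j := by
    simp [Pi.single_apply]
  rw [h2] at h1
  have h3 : star (α j) * frm ρ β v = 0 := by linear_combination h1
  rcases mul_eq_zero.1 h3 with h4 | h4
  · rw [star_eq_zero] at h4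
    exact absurd h4 hj
  · exact h4

theorem minors_f {s : W} {α β γ : Fin n → ℂ} (hα : α ≠ 0)
    (h : ∀ v : Fin n → ℂ, ∑ q, α q * v q = 0 → frm ρ γ v = 0) (i j : Fin n) :
    α i * frm ρ γ (Pi.single j 1) = α j * frm ρ γ (Pi.single i 1) := by
  have h1 := h (α i • Pi.single j 1 + (-(α j)) • Pi.single i 1) (by
    simp only [Pi.add_apply, Pi.smul_apply, smul_eq_mul, mul_add, Finset.sum_add_distrib,
      Pi.single_apply, mul_ite, mul_one, mul_zero, Finset.sum_ite_eq', Finset.mem_univ, if_true]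
    ring)
  rw [frm_add_right, frm_smul_right, frm_smul_right] at h1
  linear_combination h1

theorem par {s r : W} {αs βs αr βr : Fin n → ℂ}
    (hs : ((ρ s)⁻¹).val - 1 = Matrix.of fun p q => βs p * αs q)
    (hr : ((ρ r)⁻¹).val - 1 = Matrix.of fun p q => βr p * αr q)
    (hαs : αs ≠ 0) (hαr : αr ≠ 0) (hβs : βs ≠ 0) (hβr : βr ≠ 0)
    (hβ : ∀ i j, βs i * βr j - βs j * βr i = 0) (i j : Fin n) :
    αs i * αr j - αs j * αr i = 0 := by
  obtain ⟨m, hm⟩ := Function.ne_iff.1 hβr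
  have hm' : βr m ≠ 0 := hm
  have ht : βs = (βs m / βr m) • βr := by
    funext i
    simp only [Pi.smul_apply, smul_eq_mul]
    field_simp
    linear_combination hβ i m
  have ht0 : βs m / βr m ≠ 0 := by
    intro h0
    rw [h0, zero_smul] at ht
    exact hβs ht
  have h1 := minors_f ρ (s := r) (β := βr) (γ := βr) hαr (orth ρ hr hαr)
  have h2 := minors_f ρ (s := s) (β := βs) (γ := βr) hαs (fun v hv => by
    have h3 := orth ρ hs hαs v hv
    rw [ht, frm_smul_left] at h3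
    rcases mul_eq_zero.1 h3 with h4 | h4
    · rw [star_eq_zero] at h4
      exact absurd h4 ht0
    · exact h4)
  have h3 : ∃ k, frm ρ βr (Pi.single k 1) ≠ 0 := by
    by_contra hno
    push Not at hno
    apply frm_self_ne ρ βr hβr
    rw [frm_single]
    exact Finset.sum_eq_zero fun j _ => by rw [hno j, mul_zero]
  obtain ⟨k, hk⟩ := h3
  have h4 := h2 i k
  have h5 := h1 j k
  have h6 := h2 j k
  have h7 := h1 i k
  have h8 : (αs i * αr j - αs j * αr i) * (frm ρ βr (Pi.single k 1)) ^ 2 = 0 := by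
    linear_combination (αr j * frm ρ βr (Pi.single k 1)) * h4 +
      (αs k * frm ρ βr (Pi.single i 1)) * h5 - (αr i * frm ρ βr (Pi.single k 1)) * h6 -
      (αs k * frm ρ βr (Pi.single j 1)) * h7
  rcases mul_eq_zero.1 h8 with h9 | h9
  · exact h9
  · exact absurd (pow_eq_zero_iff (two_ne_zero) |>.1 h9) hk

end

open Classical in
theorem t_DK1 : S_DK1 := by
  intro n W _ _ ρ c hc α β hαβ w a b
  have hin : ∀ (F : W → W → Kf n) (s : W),
      ∑ r, (if r * s = w then F s r else 0) = F s (w * s⁻¹) := by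
    intro F s
    rw [Finset.sum_eq_single (w * s⁻¹)]
    · rw [if_pos (by group)]
    · intro r _ hr
      rw [if_neg]
      intro h
      apply hr
      rw [← h]
      group
    · intro h
      exact absurd (Finset.mem_univ _) h
  rw [Finset.sum_congr rfl fun s _ => hin (fun s r =>
    algebraMap ℂ (Kf n) (c s * c r * (α s a * α r b - α s b * α r a)) *
            (algebraMap (MvPolynomial (Fin n) ℂ) (Kf n) (∑ l, C (α s l) * X l))⁻¹ *
            (algebraMap (MvPolynomial (Fin n) ℂ) (Kf n) (∑ l, C (α r l) * X l))⁻¹) s]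
  have hne : ∀ s, c s ≠ 0 → α s ≠ 0 ∧ β s ≠ 0 := by
    intro s hs
    have h1 := hc.2 s hs
    have h2 : ((ρ s)⁻¹).val - 1 ≠ 0 := by
      intro h0
      have h3 : (ρ s)⁻¹ = 1 := by
        apply Units.ext
        rw [Units.val_one]
        exact sub_eq_zero.1 h0
      rw [inv_eq_one] at h3
      rw [h3, Units.val_one, sub_self, Matrix.rank_zero] at h1
      exact absurd h1 (by norm_num)
    rw [hαβ s hs] at h2
    constructor
    · intro h0
      apply h2
      rw [h0]
      ext p q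
      simp
    · intro h0
      apply h2
      rw [h0]
      ext p q
      simp
  by_cases hex : ∃ s, c s ≠ 0 ∧ c (w * s⁻¹) ≠ 0 ∧
      ∃ k l, α s k * α (w * s⁻¹) l - α s l * α (w * s⁻¹) k ≠ 0
  · obtain ⟨s0, hs0, hr0, k, l, hkl⟩ := hex
    have hD : ∀ s, c s ≠ 0 → c (w * s⁻¹) ≠ 0 → ∀ p q, (((ρ w)⁻¹).val - 1) p q =
        β s p * (α s q + (∑ m, α s m * β (w * s⁻¹) m) * α (w * s⁻¹) q) +
          β (w * s⁻¹) p * α (w * s⁻¹) q := by
      intro s hs hr p q
      set r := w * s⁻¹ with hr'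
      have e1 : (ρ w)⁻¹ = (ρ s)⁻¹ * (ρ r)⁻¹ := by
        rw [← mul_inv_rev, ← map_mul]
        congr 2
        rw [hr']
        group
      have e2 : ((ρ s)⁻¹).val = 1 + Matrix.of fun p q => β s p * α s q := by
        rw [← hαβ s hs]; abel
      have e3 : ((ρ r)⁻¹).val = 1 + Matrix.of fun p q => β r p * α r q := by
        rw [← hαβ r hr]; abel
      rw [e1, Units.val_mul, e2, e3, add_mul, one_mul, mul_add, mul_one]
      have e4 : ((Matrix.of fun p q => β s p * α s q) * (Matrix.of fun p q => β r p * α r q) :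
          Matrix (Fin n) (Fin n) ℂ) p q = β s p * (∑ m, α s m * β r m) * α r q := by
        rw [Matrix.mul_apply, Finset.mul_sum, Finset.sum_mul]
        refine Finset.sum_congr rfl fun m _ => ?_
        rw [Matrix.of_apply, Matrix.of_apply]
        ring
      rw [Matrix.sub_apply, Matrix.add_apply, Matrix.add_apply, Matrix.add_apply, e4,
        Matrix.of_apply, Matrix.of_apply]
      ring
    have hβ : ∃ i j, β s0 i * β (w * s0⁻¹) j - β s0 j * β (w * s0⁻¹) i ≠ 0 := by
      by_contra hno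
      push Not at hno
      exact hkl (par ρ (hαβ s0 hs0) (hαβ _ hr0) (hne _ hs0).1 (hne _ hr0).1 (hne _ hs0).2
        (hne _ hr0).2 hno k l)
    obtain ⟨i, j, hij⟩ := hβ
    set D : Matrix (Fin n) (Fin n) ℂ := ((ρ w)⁻¹).val - 1 with hDdef
    have hDne : D i k * D j l - D i l * D j k ≠ 0 := by
      have h1 : D i k * D j l - D i l * D j k =
          (β s0 i * β (w * s0⁻¹) j - β s0 j * β (w * s0⁻¹) i) *
            (α s0 k * α (w * s0⁻¹) l - α s0 l * α (w * s0⁻¹) k) := by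
        rw [hD s0 hs0 hr0, hD s0 hs0 hr0, hD s0 hs0 hr0, hD s0 hs0 hr0]
        ring
      rw [h1]
      exact mul_ne_zero hij hkl
    have hspan : ∀ s, c s ≠ 0 → c (w * s⁻¹) ≠ 0 →
        (∃ x y : ℂ, α s = x • D i + y • D j) ∧
          (∃ x y : ℂ, α (w * s⁻¹) = x • D i + y • D j) := fun s hs hr =>
      span_of_rows i j k l D (β s) (α s) (β (w * s⁻¹)) (α (w * s⁻¹)) _ (hD s hs hr) hDne
    set h : W → Kf n := fun s =>
      algebraMap ℂ (Kf n) (α s a * α s0 b - α s b * α s0 a) * (Lf (α s))⁻¹ * (Lf (α s0))⁻¹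
      with hh
    have hterm : ∀ s, algebraMap ℂ (Kf n) (c s * c (w * s⁻¹) *
        (α s a * α (w * s⁻¹) b - α s b * α (w * s⁻¹) a)) *
        (algebraMap (MvPolynomial (Fin n) ℂ) (Kf n) (∑ l, C (α s l) * X l))⁻¹ *
        (algebraMap (MvPolynomial (Fin n) ℂ) (Kf n) (∑ l, C (α (w * s⁻¹) l) * X l))⁻¹ =
        algebraMap ℂ (Kf n) (c s * c (w * s⁻¹)) * h s -
          algebraMap ℂ (Kf n) (c s * c (w * s⁻¹)) * h (w * s⁻¹) := by
      intro s
      by_cases h1 : c s = 0
      · rw [h1, zero_mul, zero_mul, map_zero]; ring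
      by_cases h2 : c (w * s⁻¹) = 0
      · rw [h2, mul_zero, zero_mul, map_zero]; ring
      have h3 := theta_id a b (D i) (D j) (α s) (α (w * s⁻¹)) (α s0) (hspan s h1 h2).1
        (hspan s h1 h2).2 (hspan s0 hs0 hr0).1 (hne _ h1).1 (hne _ h2).1 (hne _ hs0).1
      rw [map_mul, mul_assoc, mul_assoc, ← mul_assoc (algebraMap ℂ (Kf n)
        (α s a * α (w * s⁻¹) b - α s b * α (w * s⁻¹) a))]
      change algebraMap ℂ (Kf n) (c s * c (w * s⁻¹)) *
        (algebraMap ℂ (Kf n) (α s a * α (w * s⁻¹) b - α s b * α (w * s⁻¹) a) *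
          (Lf (α s))⁻¹ * (Lf (α (w * s⁻¹)))⁻¹) = _
      rw [h3, mul_sub]
    rw [Finset.sum_congr rfl fun s _ => hterm s, Finset.sum_sub_distrib, sub_eq_zero]
    rw [← Equiv.sum_comp ((Equiv.inv W).trans (Equiv.mulLeft w))]
    refine Finset.sum_congr rfl fun s _ => ?_
    simp only [Equiv.trans_apply, Equiv.inv_apply, Equiv.coe_mulLeft]
    have e1 : w * (w * s⁻¹)⁻¹ = w * s * w⁻¹ := by group
    rw [e1, hc.1 w s, mul_comm (c (w * s⁻¹)) (c s)]
  · push Not at hex
    refine Finset.sum_eq_zero fun s _ => ?_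
    by_cases h1 : c s = 0
    · rw [h1, zero_mul, zero_mul, map_zero, zero_mul, zero_mul]
    by_cases h2 : c (w * s⁻¹) = 0
    · rw [h2, mul_zero, zero_mul, map_zero, zero_mul, zero_mul]
    rw [hex s h1 h2 a b, mul_zero, map_zero, zero_mul, zero_mul]

end Pool.Agent.V5helper69.CM
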